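import Pool.Agent.Lib_helper51.TM32.NDefs
import Pool.Agent.Lib_helper51.TM32.Arith
import Pool.Agent.Lib_helper33.TM32.E3
import Pool.Agent.Lib_helper87.TM32.E5

/-!
TM32, phase 2, block N8: the link of `rr p` with `c(p)`.
-/

set_option autoImplicit false

namespace Pool.Agent.TM32

open Zsqrtd

theorem N8_mem_SN {n : ℕ} {x : Zs} : x ∈ SN n ↔ x.norm = n := by
  unfold SN
  rw [Finset.mem_filter, Finset.mem_map]
  constructor
  · exact fun h => h.2
  · intro h
    refine ⟨⟨(x.re, x.im), ?_, rfl⟩, h⟩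
    rw [nv] at h
    rw [Finset.mem_product, Finset.mem_Icc, Finset.mem_Icc]
    have h1 : x.re ^ 2 ≤ n := by nlinarith [sq_nonneg x.im]
    have h2 : x.im ^ 2 ≤ n := by nlinarith [sq_nonneg x.re, sq_nonneg x.im]
    have key : ∀ t : ℤ, t ^ 2 ≤ n → -(n : ℤ) ≤ t ∧ t ≤ n := by
      intro t ht
      have h3 : |t| ≤ t ^ 2 := by
        rw [← sq_abs]
        rcases eq_or_ne t 0 with rfl | h4
        · simp
        · have h5 : 1 ≤ |t| := Int.one_le_abs h4
          nlinarith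
      exact abs_le.1 (h3.trans ht)
    exact ⟨key _ h1, key _ h2⟩

/-- two elements of the same prime norm are equal up to sign and conjugation -/
theorem N8_four {p : ℕ} (hp : p.Prime) {a b c d : ℤ} (h1 : a ^ 2 + 2 * b ^ 2 = p)
    (h2 : c ^ 2 + 2 * d ^ 2 = p) :
    (c = a ∧ d = b) ∨ (c = -a ∧ d = -b) ∨ (c = a ∧ d = -b) ∨ (c = -a ∧ d = b) := by
  have hp' : Prime (p : ℤ) := Nat.prime_iff_prime_int.1 hp
  have hp0 : (0 : ℤ) < p := by exact_mod_cast hp.pos
  -- main case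
  have main : ∀ d : ℤ, c ^ 2 + 2 * d ^ 2 = p → (p : ℤ) ∣ c * b - d * a →
      (c = a ∧ d = b) ∨ (c = -a ∧ d = -b) := by
    intro d h2 hd
    have e1 : (c * a + 2 * d * b) ^ 2 + 2 * (c * b - d * a) ^ 2 = (p : ℤ) ^ 2 := by
      rw [pow_two (p : ℤ)]
      nth_rewrite 1 [← h1]
      rw [← h2]
      ring
    have e2 : c * b - d * a = 0 := by
      obtain ⟨k, hk⟩ := hd
      rw [hk] at e1 ⊢
      rcases eq_or_ne k 0 with rfl | h4
      · simp
      · exfalso
        have h5 : 1 ≤ k ^ 2 := by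
          have := Int.one_le_abs h4
          rw [← sq_abs]; nlinarith
        have h6 : 0 < (p : ℤ) ^ 2 := by positivity
        nlinarith [sq_nonneg (c * a + 2 * d * b)]
    rw [e2] at e1
    have e3 : (c * a + 2 * d * b) ^ 2 = (p : ℤ) ^ 2 := by linarith
    rcases sq_eq_sq_iff_eq_or_eq_neg.1 e3 with e4 | e4
    · left
      have hc : (p : ℤ) * c = p * a := by
        calc (p : ℤ) * c = (a ^ 2 + 2 * b ^ 2) * c := by rw [h1]
          _ = a * (c * a + 2 * d * b) + 2 * b * (c * b - d * a) := by ring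
          _ = p * a := by rw [e4, e2]; ring
      have hd : (p : ℤ) * d = p * b := by
        calc (p : ℤ) * d = (a ^ 2 + 2 * b ^ 2) * d := by rw [h1]
          _ = b * (c * a + 2 * d * b) - a * (c * b - d * a) := by ring
          _ = p * b := by rw [e4, e2]; ring
      exact ⟨mul_left_cancel₀ hp0.ne' hc, mul_left_cancel₀ hp0.ne' hd⟩
    · right
      have hc : (p : ℤ) * c = p * (-a) := by
        calc (p : ℤ) * c = (a ^ 2 + 2 * b ^ 2) * c := by rw [h1]
          _ = a * (c * a + 2 * d * b) + 2 * b * (c * b - d * a) := by ring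
          _ = p * (-a) := by rw [e4, e2]; ring
      have hd : (p : ℤ) * d = p * (-b) := by
        calc (p : ℤ) * d = (a ^ 2 + 2 * b ^ 2) * d := by rw [h1]
          _ = b * (c * a + 2 * d * b) - a * (c * b - d * a) := by ring
          _ = p * (-b) := by rw [e4, e2]; ring
      exact ⟨mul_left_cancel₀ hp0.ne' hc, mul_left_cancel₀ hp0.ne' hd⟩
  have e0 : (p : ℤ) ∣ (c * b - d * a) * (c * b + d * a) := by
    refine ⟨b ^ 2 - d ^ 2, ?_⟩
    have : (c * b - d * a) * (c * b + d * a) = c ^ 2 * b ^ 2 - d ^ 2 * a ^ 2 := by ring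
    rw [this, show c ^ 2 = p - 2 * d ^ 2 by linarith, show a ^ 2 = p - 2 * b ^ 2 by linarith]
    ring
  rcases hp'.dvd_or_dvd e0 with h3 | h3
  · rcases main d h2 h3 with h4 | h4
    · exact Or.inl h4
    · exact Or.inr (Or.inl h4)
  · rcases main (-d) (by rw [neg_sq]; exact h2) (by
      have : c * b - -d * a = c * b + d * a := by ring
      rw [this]; exact h3) with h4 | h4
    · exact Or.inr (Or.inr (Or.inl ⟨h4.1, by linarith [h4.2]⟩))
    · exact Or.inr (Or.inr (Or.inr ⟨h4.1, by linarith [h4.2]⟩))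

/-- the value of `rr p` from one element of norm `p` -/
theorem N8_rr {p : ℕ} (hp : p.Prime) (h8 : p % 8 = 1) {ν : Zs} (hν : ν.norm = p) :
    ν.re % 2 = 1 ∧ ν.im % 2 = 0 ∧ (rr p).re = if ν.im % 4 = 0 then 2 else -2 := by
  obtain ⟨a, b⟩ := ν
  rw [nv] at hν
  simp only at hν ⊢
  have hp8 : (p : ℤ) % 8 = 1 := by omega
  have ha : a % 2 = 1 := by
    rcases Int.emod_two_eq_zero_or_one a with h | h
    · exfalso
      obtain ⟨k, rfl⟩ : ∃ k, a = 2 * k := ⟨a / 2, by omega⟩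
      have : (p : ℤ) = 2 * (2 * k ^ 2 + b ^ 2) := by rw [← hν]; ring
      omega
    · exact h
  have hb : b % 2 = 0 := by
    rcases Int.emod_two_eq_zero_or_one b with h | h
    · exact h
    · exfalso
      obtain ⟨k, rfl⟩ : ∃ k, a = 2 * k + 1 := ⟨a / 2, by omega⟩
      obtain ⟨l, rfl⟩ : ∃ l, b = 2 * l + 1 := ⟨b / 2, by omega⟩
      obtain ⟨m, hm⟩ := Int.even_mul_succ_self k
      obtain ⟨m', hm'⟩ := Int.even_mul_succ_self l
      have : (p : ℤ) = 4 * (k * (k + 1)) + 8 * (l * (l + 1)) + 3 := by rw [← hν]; ring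
      omega
  refine ⟨ha, hb, ?_⟩
  have ha0 : a ≠ 0 := by rintro rfl; simp at ha
  have hb0 : b ≠ 0 := by
    rintro rfl
    have h3 : a ^ 2 = p := by linarith
    have h4 : IsSquare (p : ℤ) := ⟨a, by rw [← h3]; ring⟩
    exact (Nat.prime_iff_prime_int.1 hp).irreducible.not_isSquare h4
  have hSN : SN p = {(⟨a, b⟩ : Zs), ⟨-a, -b⟩, ⟨a, -b⟩, ⟨-a, b⟩} := by
    ext x
    rw [N8_mem_SN, nv]
    simp only [Finset.mem_insert, Finset.mem_singleton]
    constructor
    · intro h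
      obtain ⟨c, d⟩ := x
      simp only [Zsqrtd.mk.injEq]
      exact N8_four hp hν h
    · rintro (rfl | rfl | rfl | rfl)
      · exact hν
      · simpa using hν
      · simpa using hν
      · simpa using hν
  have hna : -a ≠ a := by omega
  have hnb : -b ≠ b := by omega
  have hsum : ∑ x ∈ SN p, kap x = kap ⟨a, b⟩ + (kap ⟨-a, -b⟩ + (kap ⟨a, -b⟩ + kap ⟨-a, b⟩)) := by
    rw [hSN, Finset.sum_insert, Finset.sum_insert, Finset.sum_insert, Finset.sum_singleton]
    · simp only [Finset.mem_singleton, Zsqrtd.mk.injEq]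
      rintro ⟨h1, -⟩
      exact hna h1.symm
    · simp only [Finset.mem_insert, Finset.mem_singleton, Zsqrtd.mk.injEq]
      rintro (⟨h1, -⟩ | ⟨-, h1⟩)
      · exact hna h1
      · exact hnb h1
    · simp only [Finset.mem_insert, Finset.mem_singleton, Zsqrtd.mk.injEq]
      rintro (⟨h1, -⟩ | ⟨-, h1⟩ | ⟨h1, -⟩)
      · exact hna h1.symm
      · exact hnb h1.symm
      · exact hna h1.symm
  have hk : ∀ c d : ℤ, c % 2 = 1 → d % 2 = 0 → (d % 4 = 0 ↔ b % 4 = 0) →
      kap ⟨c, d⟩ = if b % 4 = 0 then 1 else -1 := by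
    intro c d hc hd h
    unfold kap
    simp only
    rw [if_neg (by omega)]
    by_cases h4 : b % 4 = 0
    · rw [if_pos (h.2 h4), if_pos h4]
    · rw [if_neg (fun h5 => h4 (h.1 h5)), if_pos (by have := fun h5 => h4 (h.1 h5); omega),
        if_neg h4]
  unfold rr
  rw [hsum, hk a b ha hb Iff.rfl, hk (-a) (-b) (by omega) (by omega) (by omega),
    hk a (-b) ha (by omega) (by omega), hk (-a) b (by omega) hb Iff.rfl]
  split_ifs
  · norm_num
  · norm_num

theorem N8_im {w : Z8} (hw : Wp w) : (QuadraticAlgebra.norm w).im % 4 = 0 ↔ W w := by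
  obtain ⟨⟨h1, h2⟩, h3⟩ := hw
  unfold W Op
  obtain ⟨⟨a0, a1⟩, ⟨b0, b1⟩⟩ := w
  simp only at h1 h2 h3
  rw [QuadraticAlgebra.norm_def]
  simp only [Zsqrtd.re_mul, Zsqrtd.im_add, Zsqrtd.im_sub, Zsqrtd.im_mul, Zsqrtd.re_one,
    Zsqrtd.im_one]
  obtain ⟨k, rfl⟩ : ∃ k, a0 = 2 * k + 1 := ⟨a0 / 2, by omega⟩
  obtain ⟨l, rfl⟩ : ∃ l, a1 = 2 * l := ⟨a1 / 2, by omega⟩
  obtain ⟨m, rfl⟩ : ∃ m, b0 = 2 * m := ⟨b0 / 2, by omega⟩
  have e : (2 * k + 1) * (2 * l) + 2 * l * (2 * k + 1) +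
            ((0 * (2 * k + 1) + -2 * 1 * (2 * l)) * b1 + (0 * (2 * l) + 1 * (2 * k + 1)) * (2 * m)) -
          ((1 * (2 * m) + -2 * 0 * b1) * b1 + (1 * b1 + 0 * (2 * m)) * (2 * m)) =
      4 * (l * (2 * k + 1) - l * b1 + m * k - m * b1) + 2 * m := by ring
  rw [e]
  omega

theorem aT_eight {p : ℕ} (hp : p.Prime) (h : p % 8 = 1) : aT p % 16 = 8 ↔ (rr p).re = -2 := by
  obtain ⟨w0, hw0⟩ := exists_norm hp h
  obtain ⟨u, hu, hW⟩ := exists_Wp (w := w0) (by rw [hw0]; omega)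
  have hN : N8 (u * w0) = p := by rw [N8_mul, hu, hw0, one_mul]
  obtain ⟨-, -, h3⟩ := N8_rr hp h (ν := QuadraticAlgebra.norm (u * w0)) hN
  rw [h3]
  by_cases hWw : W (u * w0)
  · rw [if_pos ((N8_im hW).2 hWw)]
    rcases arith1 hp hWw hN with h4 | h4
    · have h5 := h4.2
      constructor
      · intro h6; omega
      · intro h6; norm_num at h6
    · have h5 := h4.2
      constructor
      · intro h6; omega
      · intro h6; norm_num at h6
  · rw [if_neg (fun h4 => hWw ((N8_im hW).1 h4))]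
    exact ⟨fun _ => rfl, fun _ => arith2 hp hW hN hWw⟩

end Pool.Agent.TM32
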