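import Pool.Agent.Lib_helper90.PNT.WienerIkehara

/-!
TM32, phase 2, block N7b: lower bound for the number of primes `1 mod 8`.
-/

set_option autoImplicit false

namespace Pool.Agent.TM32

open Filter Topology

theorem pi8_lower : ∃ c : ℝ, 0 < c ∧ ∀ᶠ X : ℕ in atTop, c * (X : ℝ) / Real.log X ≤
    (((Finset.Icc 1 X).filter (fun p => p.Prime ∧ p % 8 = 1)).card : ℝ) := by
  classical
  have h := Pool.Agent.Lib_helper90.PNT.pnt_residueClass (q := 8) (a := 1) isUnit_one
  have htot : ((Nat.totient 8 : ℕ) : ℝ)⁻¹ = 1 / 4 := by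
    have : Nat.totient 8 = 4 := by decide
    rw [this]; norm_num
  rw [htot] at h
  set R : ℕ → ℝ := ArithmeticFunction.vonMangoldt.residueClass (1 : ZMod 8) with hR
  obtain ⟨C, hC⟩ := Chebyshev.psi_sub_theta_le_mul_sqrt
  have h1 : ∀ᶠ X : ℕ in atTop, 0.2 * (X : ℝ) ≤ ∑ k ∈ Finset.Icc 1 X, R k := by
    have h2 := (h.comp tendsto_natCast_atTop_atTop).eventually
      (lt_mem_nhds (show (0.2 : ℝ) < 1 / 4 by norm_num))
    filter_upwards [h2, eventually_gt_atTop 0] with X hX hX0
    have hX0' : (0 : ℝ) < X := by exact_mod_cast hX0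
    rw [Function.comp_apply, Nat.floor_natCast, lt_div_iff₀ hX0'] at hX
    exact hX.le
  have h3 : ∀ᶠ X : ℕ in atTop, C * Real.sqrt X ≤ 0.05 * X := by
    have h4 : ∀ᶠ X : ℕ in atTop, (20 * (|C| + 1)) ^ 2 ≤ (X : ℝ) :=
      tendsto_natCast_atTop_atTop.eventually (eventually_ge_atTop _)
    filter_upwards [h4] with X hX
    have h6 : 20 * (|C| + 1) ≤ Real.sqrt X := Real.le_sqrt_of_sq_le hX
    have h7 : Real.sqrt X * Real.sqrt X = X := Real.mul_self_sqrt (Nat.cast_nonneg X)
    have h8 : 0 ≤ Real.sqrt X := Real.sqrt_nonneg _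
    have h9 : C ≤ |C| := le_abs_self C
    have h10 : 0 ≤ |C| := abs_nonneg C
    calc C * Real.sqrt X ≤ |C| * Real.sqrt X := mul_le_mul_of_nonneg_right h9 h8
      _ ≤ 0.05 * (Real.sqrt X * Real.sqrt X) := by nlinarith
      _ = 0.05 * X := by rw [h7]
  refine ⟨1 / 8, by norm_num, ?_⟩
  filter_upwards [h1, h3, eventually_gt_atTop 1] with X e1 e3 hX1
  have hX0 : (0 : ℝ) < X := by
    have : 0 < X := by omega
    exact_mod_cast this
  have hlog : 0 < Real.log X := Real.log_pos (by exact_mod_cast hX1)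
  rw [div_le_iff₀ hlog]
  set F := (Finset.Icc 1 X).filter (fun p : ℕ => p.Prime ∧ p % 8 = 1) with hF
  rw [← Finset.sum_filter_add_sum_filter_not _ (fun k : ℕ => k.Prime)] at e1
  have hp1 : ∑ k ∈ (Finset.Icc 1 X).filter (fun k : ℕ => k.Prime), R k ≤
      (F.card : ℝ) * Real.log X := by
    have hsub : F ⊆ (Finset.Icc 1 X).filter (fun k : ℕ => k.Prime) := by
      intro p hp
      rw [hF, Finset.mem_filter] at hp
      rw [Finset.mem_filter]
      exact ⟨hp.1, hp.2.1⟩
    rw [← Finset.sum_subset hsub]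
    · rw [← nsmul_eq_mul]
      apply Finset.sum_le_card_nsmul
      intro p hp
      rw [hF, Finset.mem_filter, Finset.mem_Icc] at hp
      refine (ArithmeticFunction.vonMangoldt.residueClass_le _ _).trans ?_
      rw [ArithmeticFunction.vonMangoldt_apply_prime hp.2.1]
      apply Real.log_le_log
      · exact_mod_cast hp.2.1.pos
      · exact_mod_cast hp.1.2
    · intro p hp hnp
      rw [Finset.mem_filter] at hp
      have h4 : p % 8 ≠ 1 := by
        intro h4
        apply hnp
        rw [hF, Finset.mem_filter]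
        exact ⟨hp.1, hp.2, h4⟩
      rw [hR]
      unfold ArithmeticFunction.vonMangoldt.residueClass
      rw [Set.indicator_of_notMem]
      intro hmem
      apply h4
      rw [Set.mem_ofPred_eq] at hmem
      have h5 : ((p : ℕ) : ZMod 8) = ((1 : ℕ) : ZMod 8) := by rw [hmem]; simp
      rw [ZMod.natCast_eq_natCast_iff] at h5
      exact h5
  have hp2 : ∑ k ∈ (Finset.Icc 1 X).filter (fun k : ℕ => ¬ k.Prime), R k ≤
      C * Real.sqrt X := by
    refine le_trans ?_ (hC X)
    rw [Chebyshev.psi_sub_theta_eq_sum_not_prime, Nat.floor_natCast]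
    refine le_trans (Finset.sum_le_sum (fun k _ =>
      ArithmeticFunction.vonMangoldt.residueClass_le (1 : ZMod 8) k)) ?_
    apply Finset.sum_le_sum_of_subset_of_nonneg
    · intro k hk
      simp only [Finset.mem_filter, Finset.mem_Ioc, Finset.mem_Icc] at hk ⊢
      exact ⟨⟨by omega, hk.1.2⟩, hk.2⟩
    · intro k _ _
      exact ArithmeticFunction.vonMangoldt_nonneg
  linarith

end Pool.Agent.TM32
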